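import Pool.Agent.U128.ZO.Tri

/-!
# Hodge classes and Tate classes on the powers of a variety: a trichotomy

Let `X` be a smooth projective variety over a number field (more generally over a field with an
embedding into the complex numbers), with nonzero cohomology. The Mumford-Tate conjecture for the
cohomology of `X` compares two groups: the Mumford-Tate group `MT` is the group which fixes the Hodge
classes on all powers of `X`, and the connected `ℓ`-adic monodromy group `G_ℓ°` fixes exactly the Tate
classes (the classes which are fixed, up to the Tate twist, by a subgroup of finite index of the Galois
group). So `G_ℓ° ⊆ MT` says that all Hodge classes on all powers of `X` are Tate classes, and the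
equality implies that the Tate classes are the `ℚ_ℓ`-linear combinations of the Hodge classes (the
converse is true if `G_ℓ°` is reductive). Neither inclusion is known in general.

**Theorem.** Exactly one of the following is true.

* (a) On all powers of `X` the Hodge classes are Tate classes and the Tate classes are `ℚ_ℓ`-linear
  combinations of Hodge classes; both kinds of classes span spaces of the same dimension.
* (b) Some Hodge class on some power of `X` is not a Tate class. The Hodge classes which are Tate classes
  (so in particular the algebraic, the motivated and the absolutely Hodge classes) have density zero
  among the Hodge classes: the quotient of the dimensions of the spaces of the Hodge classes on `X ^ n`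
  and of the Hodge classes on `X ^ n` which are Tate classes tends to infinity.
* (c) All Hodge classes on all powers of `X` are Tate classes (`G_ℓ° ⊆ MT`), but some Tate class on some
  power is not a linear combination of Hodge classes. The Hodge classes have density zero among the
  Tate classes: the quotient of the dimensions of the spaces of the Tate classes and of the Hodge
  classes on `X ^ n` tends to infinity.

So the conjecture (in terms of classes) holds for `X` if and only if the classes which are both Hodge
classes and Tate classes have positive density among the Hodge classes and among the Tate classes on
the powers of `X`. If `X` is an abelian variety, then (b) is impossible (Deligne) and `G_ℓ°` is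
reductive (Faltings): either the Mumford-Tate conjecture holds for `X`, or the Hodge classes have
density zero among the Tate classes on the powers of `X`.

The proof. The classes which are Hodge classes and Tate classes form a nondegenerate system, and by
the tower law (library) the Hodge classes on the powers of `X` are generated by finitely many ones
under the correspondences given by this system, unless the index is infinite. Let `v` be a Hodge
class. Its external powers `v ^ s`, `s = 1, 2, …`, are values of linear maps which are equivariant for
subgroups of finite index of the Galois group and which are defined on one and the same
finite-dimensional space, of dimension `D`, at one and the same point. So a linear relation between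
`D + 1` conjugates of this point gives the same relation between the external powers of the
conjugates of `v`, for all `s ≤ D + 1`, and by a Vandermonde determinant the conjugates of `v` cannot
be distinct: the class `v` has at most `D` conjugates under a subgroup of finite index, and so it is a
Tate class (`Pool.Agent.U128.ZO.Tate.tate_of_generated`). For the Tate classes the operator which acts
on `H^(p,q)` as `2 ^ (p - q)` is used (hand-in `MP_938ce2_ag.ZeroOneLaw`).

Here `T` is a Hodge theory, `L = ℚ_ℓ`, and `pw X n` is the product of `n + 1` copies of `X`;
`HasIndex t s ⊤` says that the quotients `t n / s n` tend to infinity.
-/

set_option autoImplicit false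

open CategoryTheory AlgebraicGeometry

universe u

namespace Pool.Agent.Results.MP_c1bb77_ag.Trichotomy

open Pool.Agent.H914 Pool.Agent.H914.VarClass Pool.Agent.H914.VarClass.Obj
  Pool.Agent.H914.WeilCohomology
open Pool.Agent.Y121.AHS
open Pool.Agent.Y133.Half (pw HasIndex)
open Pool.Agent.U128.ZO.Tate

/-- **The trichotomy for the Hodge classes and the Tate classes.** -/
theorem result {k : Type u} [Field k] {𝒱 : VarClass k} {ops : CycleOps 𝒱} (T : HodgeTheory ops)
    {L : Type} [Field L] [Algebra T.W.K L] (hL : Nonempty (L →+* ℂ)) (G : GaloisAction T.W L)
    (hG : IsRep G) (X : 𝒱.Obj) (hX : Nontrivial (T.W.H X)) :
    (HodgeAreTate T G X ∧ TateAreHodge T G X ∧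
      ∀ n, tateDim G (pw X n) = hodgeDim T (pw X n)) ∨
    (¬ HodgeAreTate T G X ∧
      HasIndex (fun n => hodgeDim T (pw X n)) (fun n => hodgeTateDim T G (pw X n)) ⊤) ∨
    (HodgeAreTate T G X ∧ ¬ TateAreHodge T G X ∧
      HasIndex (fun n => tateDim G (pw X n)) (fun n => hodgeDim T (pw X n)) ⊤) :=
  hL.elim fun τ => trichotomy G hG τ X

end Pool.Agent.Results.MP_c1bb77_ag.Trichotomy
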